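import Pool.Agent.Helper8K9.CY.Concl
import Pool.Agent.Helper8K9.CY.Gen
import Pool.Agent.Helper8K9.CY.Sig

/-!
# The Tate conjecture for all powers of cyclic coverings of any dimension

Let `X` be a smooth projective variety of dimension `n` over a number field `K` (containing the `m`-th
roots of unity, `m ≥ 3`) with an automorphism `δ` of order `m`. Let `V` be the part of
`H ^ n (X, ℚ_ℓ)` on which `Φ_m(δ) = 0`, with the action `ρ` of the Galois group `Γ`, the cup product
`ω` (symmetric or alternating) and the character `χ` by which `ω` is multiplied, the `n`-th power of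
the cyclotomic character (up to the sign of the exponent); `V` is a module of some rank `r` over
`ℚ(ζ_m) ⊗ ℚ_ℓ`. The main example: `m = p` is a prime number and `X` is the cyclic covering
`y ^ p = f(x_0, …, x_n)` of the projective space, `f` a form of degree `p e` that defines a smooth
hypersurface; here the cohomology of `X` is the sum of `V` and of the powers of the class of a
hyperplane section. (For prime powers `m` it is the sum of the `V` for the divisors of `m`.)

Suppose that

* some element `γ` of the Galois group acts on `V` as a complex reflection over `ℚ(ζ_m) ⊗ ℚ_ℓ`, with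
  root `d` and eigenvalue `± δ ^ a`, `a` prime to `m` (`IsReflectionAt`). By the theory of Picard,
  Lefschetz and Pham this holds for a generator of the tame inertia group of a place not dividing
  `m ℓ` where `f` acquires a single node and that divides the discriminant of `f` exactly once;
* at one place of good reduction the characteristic polynomial `Q` of the Frobenius element `F` over
  `ℚ(ζ_m)` (`HasPolynomial`) has degree `r ≥ 3` and simple roots whose quotients are not roots of
  unity; and it is irreducible over all completions of `ℚ(ζ_m)` at places dividing `ℓ`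
  (`IrreducibleOverCompletions`), or, more generally, `V` is generated by the root `d` under `δ` and
  `F` (`GeneratedBy`);
* the valuations of the conjugates of the constant coefficient of `Q` at some prime ideal are given,
  up to a common factor, by a function `s` on `(ℤ / m)ˣ` (`HasValuations`) that is nondegenerate: no
  odd function is orthogonal to all its translates. (If the residue characteristic splits
  completely in `ℚ(ζ_m)`, then `s(t)` is `∑ q h ^ {n - q, q}`, for the Hodge numbers of the eigenspace
  of `δ` belonging to `t`: the Newton and the Hodge polygon have the same endpoint.)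

The theorem. The third condition is satisfied for prime powers `m` by the signatures `covSig` of
cyclic coverings of degree `m` of the projective space of dimension `n`, branched along a
hypersurface of degree `m e`, with the only exception of cubic surfaces. (By Griffiths the numbers
`s(t)` are given by the sum in `covSig` over the monomials of the Jacobian ring.) Under the three
conditions

1. `V` is semisimple, also over all finite extensions of `K`;
2. the operators on `V` that commute with an open subgroup are the polynomials in `δ`;
3. all Tate classes in `V^{⊗ 2 j}` (multilinear forms in `2 j` variables that are multiplied by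
   `χ ^ j` under an open subgroup) are combinations of products of the forms `ω(δ ^ a x, y)`;
4. there are no Tate classes in tensor powers of odd degree: forms in an odd number `j` of variables
   that are multiplied by `ψ ^ j`, where `ψ ^ 2 = χ`, vanish (for even `n`; `ψ = χ_cycl ^ {n / 2}`).

The forms `ω(δ ^ a x, y)` are the components on `V ⊗ V` of the classes of the graphs of the powers of
`δ`. So the Tate conjecture holds, in all codimensions, for all powers `X × ⋯ × X` of the cyclic
coverings `y ^ p = f(x_0, …, x_n)`, together with the semisimplicity of the Galois action, for all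
primes `ℓ` that satisfy the conditions. Nothing else is assumed: for `n > 1` the theorem of Faltings
is not available, and it is not used for `n = 1` either.

The proof. Let `X_z` be the eigenspace of `δ` on `V` over the algebraic closure for the root of unity
`z`. A subspace of `X_z` that is minimal among the subspaces stable under an open normal subgroup is a
sum of eigenlines of `F`; it is mapped to itself by `γ`, because otherwise it is a line and its
images under `1, γ, γ ^ 2` are three eigenlines in a plane; `γ` fixes no eigenvector of `F`, because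
`V` is generated by `d`, and the form is nondegenerate; so the subspace contains the component of `d`
and is everything. So `X_z` is irreducible under all open subgroups. The reflection and the torus
generated by `F` now give a nilpotent element of rank one in the Lie algebra of the operators that
kill all Tate classes, and this Lie algebra contains the product of the `sl(X_z)`, one `z` from each
pair of conjugate roots of unity. A product of determinants of some `X_z` which is a power of `χ`
gives an odd function on `(ℤ / m)ˣ` orthogonal to all translates of `s`, so there is none. For prime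
powers `m` the nondegeneracy of the signature follows from `L(1, χ) ≠ 0` for odd characters, since
`s(t)` is a nonconstant linear function of `t`.
-/

namespace Pool.Agent.Results.MP_938ce2_ag.CyclicCoverings

open Module TensorProduct Polynomial Pool.Agent.H204R3.GP Pool.Agent.Helper8K9.CR
  Pool.Agent.Helper8K9.CY

/-- `V` is a representation of the Galois group with a nondegenerate form `ω`, which is multiplied by
the character `χ`, and an automorphism `δ` with `Φ_m(δ) = 0` that respects the form and commutes with
the Galois group. -/
structure IsUnitaryModule {ℓ : ℕ} [Fact ℓ.Prime] (m : ℕ) {V Γ : Type} [AddCommGroup V]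
    [Module ℚ_[ℓ] V] [Group Γ] (ρ : Representation ℚ_[ℓ] Γ V) (χ : Γ →* ℚ_[ℓ])
    (ω : V →ₗ[ℚ_[ℓ]] V →ₗ[ℚ_[ℓ]] ℚ_[ℓ]) (δ : Module.End ℚ_[ℓ] V) : Prop where
  /-- the form is nondegenerate -/
  nondegenerate : ∀ u, (∀ v, ω v u = 0) → u = 0
  /-- the form is equivariant -/
  equivariant : ∀ s u v, ω (ρ s u) (ρ s v) = χ s * ω u v
  /-- `δ` is a root of the cyclotomic polynomial -/
  cyclotomic : aeval δ (cyclotomic m ℚ_[ℓ]) = 0
  /-- `δ` is defined over the base field -/
  commutes : ∀ s, ρ s * δ = δ * ρ s
  /-- the form is invariant under `δ` -/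
  isometry : ∀ u v, ω (δ u) (δ v) = ω u v

/-- The space is generated by the vector `d` under the operators `δ` and `f`. -/
def GeneratedBy {k V : Type} [Field k] [AddCommGroup V] [Module k V] (δ f : Module.End k V)
    (d : V) : Prop :=
  ∀ W : Submodule k V, d ∈ W → (∀ v ∈ W, δ v ∈ W) → (∀ v ∈ W, f v ∈ W) → W = ⊤

/-- The polynomial `Q` over the field `E = ℚ(ζ)` is irreducible over all completions of `E` at places
above `ℓ`: these are the fields `ℚ_ℓ(ι(ζ))` for the embeddings `ι` of `E` in the algebraic closure of
`ℚ_ℓ`. -/
def IrreducibleOverCompletions (ℓ : ℕ) [Fact ℓ.Prime] {E : Type} [Field E] (ζ : E)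
    (Q : Polynomial E) : Prop :=
  ∀ ι : E →+* AlgebraicClosure ℚ_[ℓ],
    ∃ P : Polynomial (IntermediateField.adjoin ℚ_[ℓ] {ι ζ}),
      Irreducible P ∧ P.map (algebraMap _ (AlgebraicClosure ℚ_[ℓ])) = Q.map ι

/-- `s` is the signature of a cyclic covering of degree `m`, a power of a prime number, of a
projective space of dimension `n ≥ 1`, branched along a hypersurface of degree `m e`, and not that of
a cubic surface. -/
def IsCoveringSignature {m : ℕ} [NeZero m] (s : (ZMod m)ˣ → ℤ) : Prop :=
  ∃ (p k n e : ℕ) (_ : NeZero (m * e)), p.Prime ∧ m = p ^ k ∧ 1 ≤ n ∧ ¬(n = 2 ∧ m * e = 3) ∧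
    s = covSig n m e

/-- The Tate conjecture for all powers of cyclic coverings of any dimension. -/
theorem result (ℓ : ℕ) [Fact ℓ.Prime] (m : ℕ) [NeZero m] (hm : 3 ≤ m)
    {V Γ : Type} [AddCommGroup V] [Module ℚ_[ℓ] V] [FiniteDimensional ℚ_[ℓ] V] [Group Γ]
    (ρ : Representation ℚ_[ℓ] Γ V) (χ : Γ →* ℚ_[ℓ]) (ω : V →ₗ[ℚ_[ℓ]] V →ₗ[ℚ_[ℓ]] ℚ_[ℓ])
    (δ : Module.End ℚ_[ℓ] V) (h : IsUnitaryModule m ρ χ ω δ)
    -- a complex reflection
    (γ : Γ) (d : V) (hγ : IsReflectionAt m δ (ρ γ) d)
    -- a Frobenius element
    {E : Type} [Field E] [CharZero E] [IsCyclotomicExtension {m} ℚ E] (ζ : E)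
    (hζ : IsPrimitiveRoot ζ m) (Q : Polynomial E) (N : ℕ) (F : Γ)
    (hF : HasPolynomial (AlgebraicClosure ℚ_[ℓ]) ρ χ δ ζ Q N F) (hdeg : 3 ≤ Q.natDegree)
    (hsep : Q.Separable)
    (hroots : ∀ a b : AlgebraicClosure E, aeval a Q = 0 → aeval b Q = 0 → a ≠ b →
      ∀ k : ℕ, 0 < k → a ^ k ≠ b ^ k)
    (hgen : IrreducibleOverCompletions ℓ ζ Q ∨ GeneratedBy δ (ρ F) d)
    -- the signature
    (s : (ZMod m)ˣ → ℤ) (hs : IsCoveringSignature s ∨ Nondegenerate s)
    (hval : HasValuations ζ Q s) :
    -- semisimplicity
    FiniteIndexSemisimple ρ ∧
    -- endomorphisms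
    (∀ Δ : Subgroup Γ, Δ.FiniteIndex → ∀ A : Module.End ℚ_[ℓ] V, (∀ g ∈ Δ, A * ρ g = ρ g * A) →
      A ∈ Algebra.adjoin ℚ_[ℓ] {δ}) ∧
    -- Tate classes of even degree
    (∀ (j : ℕ) (φ : MultilinearMap ℚ_[ℓ] (fun _ : Fin j × Fin 2 => V) ℚ_[ℓ]) (Δ : Subgroup Γ),
      Δ.FiniteIndex → (∀ g ∈ Δ, ∀ v, φ (fun l => ρ g (v l)) = χ g ^ j * φ v) →
      φ ∈ Submodule.span ℚ_[ℓ] (GraphProducts ω δ j)) ∧
    -- Tate classes of odd degree
    (∀ (j : ℕ) (φ : MultilinearMap ℚ_[ℓ] (fun _ : Fin j => V) ℚ_[ℓ]) (ψ : Γ → ℚ_[ℓ])
      (Δ : Subgroup Γ), Odd j → Δ.FiniteIndex → (∀ g ∈ Δ, ψ g ^ 2 = χ g) →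
      (∀ g ∈ Δ, ∀ v, φ (fun l => ρ g (v l)) = ψ g ^ j * φ v) → φ = 0) := by
  have hn : Nondegenerate s := by
    rcases hs with ⟨p, k, n, e, hne, hp, hmk, hn, hex, rfl⟩ | hs
    · refine covSig_nondegenerate hp hmk hm hn ?_ hex
      have h1 := hne.out
      rcases Nat.eq_zero_or_pos e with rfl | he
      · simp at h1
      · exact he
    · exact hs
  have hgen' : ∀ W : Submodule ℚ_[ℓ] V, d ∈ W → (∀ v ∈ W, δ v ∈ W) → (∀ v ∈ W, ρ F v ∈ W) →
      W = ⊤ := by
    rcases hgen with hirr | hgen
    · obtain ⟨a, c, -, -, hli, -⟩ := hγ
      intro W hd hWδ hWF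
      exact generated_of_irr h.cyclotomic h.commutes hli hζ hF hsep hirr hd hWδ hWF
    · exact hgen
  obtain ⟨z0, hz, hSI, hsepU, hdual, hall⟩ := over_closure (Ω := AlgebraicClosure ℚ_[ℓ]) hm
    h.nondegenerate h.equivariant h.cyclotomic h.commutes h.isometry hγ hgen' hζ hF hdeg hsep
    hroots hn hval
  exact conclusions hm h.nondegenerate h.equivariant h.cyclotomic h.commutes hz hSI hsepU hdual hall

end Pool.Agent.Results.MP_938ce2_ag.CyclicCoverings
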