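import Pool.Agent.Helper8K9.CD.Dens
import Pool.Agent.Helper8K9.CY.Sig
import Pool.Agent.Y142.SS.Fin

/-!
# The Tate conjecture for all powers of cyclic coverings at 100 percent of the primes `ℓ`

Let `X` be a smooth projective variety of dimension `d` over a number field or a finitely generated
field `k` of characteristic zero (containing the `m`-th roots of unity, `m ≥ 3`) with an automorphism
`δ` of order `m`, and let `V_ℓ`, for all primes `ℓ`, be the part of `H ^ d (X, ℚ_ℓ)` on which
`Φ_m(δ) = 0`, of rank `n` over `ℚ(ζ_m) ⊗ ℚ_ℓ`, with the cup product form `J_ℓ` and the character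
`χ_ℓ` by which it is multiplied. The main example: `m = p` is a prime number and `X` is the cyclic
covering `y ^ p = f(x_0, …, x_d)` of the projective space, `f` a form of degree `p e` that defines a
smooth hypersurface; then the cohomology of `X` is the sum of `V_ℓ` and of the powers of the class of
a hyperplane section. The representation comes from a profinite group `Γ` (the Galois group of `k` or
the fundamental group of a model); if `k` is not a number field, a closed point of the generic fibre
of the model gives a homomorphism `s` from the Galois group of a number field `K` to `Γ`. At the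
places `v` of good reduction the geometric Frobenius element has a characteristic polynomial `P_v`
with rational coefficients, which does not depend on `ℓ`.

**Theorem.** Suppose that
(1) for all but finitely many `ℓ` some element of `Γ` acts on `V_ℓ` as a complex reflection over
`ℚ(ζ_m) ⊗ ℚ_ℓ` with the eigenvalue `± δ ^ a`, `a` prime to `m` (`IsReflection`). By the theory of
Picard, Lefschetz and Pham this holds, for all `ℓ` different from the residue characteristic, for a
generator of the tame inertia group at one place not dividing `m` where `f` acquires a single node and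
that divides the discriminant of `f` exactly once;
(2) (as in the theorem on motives with real multiplication) `u_0, ..., u_r` are places of good
reduction such that the roots of `P_{u_i}` are simple and no quotient of two different roots is a
root of unity, `F` is the intersection of the splitting fields of these polynomials, and for every
automorphism `g` of the algebraic closure of `ℚ`, of order `f` on `E = ℚ(ζ_m)`,
* for every `d < n [E : ℚ]`, `d > 0`, which is not divisible by `n f`, there are a place `v` of this
  type and an automorphism `w` which agrees with `g` on `F` such that no set of `d` roots of `P_v` is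
  stable under `w`;
* there are a place `v` of this type and an automorphism `w` which agrees with `g` on `F` such that
  `w ^ f` has a fixed point in every nonempty set of roots of `P_v` which is stable under `w` and
  whose number of elements is divisible by `n f`;
(3) at one place `w` of good reduction the characteristic polynomial `Q` of the Frobenius element over
`E` has simple roots, two of them with a quotient that is not a root of unity, and the valuations of
the conjugates of its constant coefficient at some prime ideal are given, up to a common factor, by a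
function on `(ℤ / m)ˣ` that is nondegenerate (no odd function is orthogonal to all its translates), or
that is the signature `covSig` of a cyclic covering of degree `m`, a power of a prime number, of a
projective space, branched along a hypersurface of degree `m e`, not a cubic surface. (If the residue
characteristic splits completely in `E` this is the signature of the Hodge numbers, since the Newton
and the Hodge polygon have the same endpoint; so for cyclic coverings the condition on the
valuations is always satisfied at such places.)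

Then for all prime numbers `ℓ` outside of a set of natural density zero:
1. `V_ℓ` is semisimple, also over all finite extensions of `k`;
2. the operators on `V_ℓ` that commute with a subgroup of finite index are the polynomials in `δ`;
3. all Tate classes in `V_ℓ^{⊗ 2 j}`, for all `j` (multilinear forms in `2 j` variables that are
   multiplied by `χ_ℓ ^ j` under a subgroup of finite index), are linear combinations of products of
   the forms `J_ℓ(δ ^ a x, y)`;
4. there are no Tate classes in tensor powers of odd degree.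

The forms `J_ℓ(δ ^ a x, y)` are the components on `V ⊗ V` of the classes of the graphs of the powers
of `δ`. So the Tate conjecture holds at 100 percent of the primes `ℓ`, in all codimensions, for all
powers `X × ⋯ × X` of the cyclic coverings, together with the semisimplicity.

All hypotheses are conditions on finitely many Frobenius polynomials and on one place of bad
reduction, which do not involve `ℓ`. In the theorem `CyclicCoverings` in this folder the prime `ℓ` is
fixed, and it is supposed that one Frobenius polynomial over `E` is irreducible over all completions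
of `E` at the places dividing `ℓ` (or that the root of the reflection generates `V_ℓ` under one
Frobenius element), a condition that a given polynomial satisfies for a set of primes `ℓ` of density
less than one only, and for no `ℓ` at all if its Galois group contains no suitable elements. In
`RealMultiplicationDensityOne` (MP_3703a7_ag) the field `E` is totally real. Here the group is a
unitary group, and the main new point is that there are also the determinants of the eigenspaces of
`δ`: the Tate classes of all degrees are treated, not only those of degree less than `n`.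

Condition (2): identify the eigenvalues of Frobenius on the eigenspaces of `δ` with the pairs
`(t, i)`, `t` in `(ℤ / m)ˣ`, `1 ≤ i ≤ n`, so that `(-t, i)` is dual to `(t, i)`. In general one
expects that the Galois group of `P_v` consists of all permutations
`(t, i) ↦ (a t, π_t(i))` with `π_{-t} = π_t`. If this is so for all `P_{u_i}`, if the splitting fields
of the `P_{u_i}` have the intersection `E`, and if `n` is odd, condition (2) is satisfied with
`v = u_0`: one can choose `w` so that all its orbits on the roots of `P_v` have `n f` elements, and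
also so that `w ^ f` is trivial on the roots.

Proof. By the theorem on endomorphisms of motives at 100 percent of the primes (2) implies that the
commutant of every open subgroup is `E ⊗ ℚ_ℓ` and that `V_ℓ` is semisimple. The closure of a subgroup
of finite index is open and has the same stable subspaces. So the eigenspaces of `δ` over the
algebraic closure are irreducible under all subgroups of finite index. The reflection and the torus
generated by the Frobenius element at `w` give a nilpotent element of rank one in the Lie algebra of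
the operators that kill all Tate classes; it contains the product of the `sl` of the eigenspaces, one
from each pair of conjugate ones. A product of determinants of eigenspaces which is a power of `χ_ℓ`
gives an odd function on `(ℤ / m)ˣ` orthogonal to all translates of the signature, so there is none.
-/

set_option autoImplicit false

namespace Pool.Agent.Results.MP_938ce2_ag.CyclicCoveringsDensityOne

open Matrix Polynomial Filter Topology NumberField IsDedekindDomain
open Pool.Agent.H204R3.GP Pool.Agent.Helper8K9.CR Pool.Agent.Helper8K9.CY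
  Pool.Agent.Helper8K9.CD

/-- the absolute Galois group of `K`, with its profinite (Krull) topology -/
abbrev AbsoluteGaloisGroup (K : Type) [Field K] : Type := Gal(AlgebraicClosure K/K)

/-- `σ` is an (arithmetic) Frobenius element at the prime `v` of the number field `K`: for some prime
`Q` of the algebraic closure above `v` it acts on the residue field as `x ↦ x ^ N(v)` -/
def IsFrobenius {K : Type} [Field K] [NumberField K] (v : HeightOneSpectrum (𝓞 K))
    (σ : AbsoluteGaloisGroup K) : Prop :=
  ∃ Q : Ideal (𝓞 (AlgebraicClosure K)), Q.IsMaximal ∧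
    Q.comap (algebraMap (𝓞 K) (𝓞 (AlgebraicClosure K))) = v.asIdeal ∧
    ∀ x : 𝓞 (AlgebraicClosure K), σ • x - x ^ Ideal.absNorm v.asIdeal ∈ Q

/-- `ρ` is a continuous representation of `Γ` on `ℚ_ℓ ^ N` by similitudes of the nondegenerate form
with the matrix `J`, with the multiplier `χ`. The field `E` acts by the matrices `ε a`, which commute
with the representation; the primitive root of unity `ζ` acts by an isometry; `ℚ_ℓ ^ N` is free of
rank `n` over `E ⊗ ℚ_ℓ` (this is expressed by the traces). For all `v ∉ S` which are prime to `ℓ` the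
characteristic polynomial of (the image under `s` of) the geometric Frobenius elements `σ⁻¹` (`σ`
arithmetic) at `v` is `P v`. -/
structure IsUnitarySystem (K : Type) [Field K] [NumberField K] {Γ : Type} [Group Γ]
    [TopologicalSpace Γ] (s : AbsoluteGaloisGroup K →* Γ) (N n ℓ : ℕ) [Fact ℓ.Prime]
    {E : IntermediateField ℚ (AlgebraicClosure ℚ)} (ζ : E)
    (ρ : Γ →* Matrix (Fin N) (Fin N) ℚ_[ℓ]) (χ : Γ →* ℚ_[ℓ]) (J : Matrix (Fin N) (Fin N) ℚ_[ℓ])
    (ε : E →+* Matrix (Fin N) (Fin N) ℚ_[ℓ]) (S : Set (HeightOneSpectrum (𝓞 K)))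
    (P : HeightOneSpectrum (𝓞 K) → ℚ[X]) : Prop where
  /-- continuity -/
  continuous : Continuous ρ
  /-- the form is nondegenerate -/
  nondegenerate : J.det ≠ 0
  /-- the form is multiplied by `χ` -/
  equivariant : ∀ g, (ρ g)ᵀ * J * ρ g = χ g • J
  /-- the coefficients commute with the representation -/
  commutes : ∀ (a : E) (g : Γ), ε a * ρ g = ρ g * ε a
  /-- the root of unity acts by an isometry -/
  isometry : (ε ζ)ᵀ * J * ε ζ = J
  /-- the module over `E ⊗ ℚ_ℓ` is free of rank `n` -/
  free : ∀ a : E, (ε a).trace = (n : ℚ_[ℓ]) * ((Algebra.trace ℚ E a : ℚ) : ℚ_[ℓ])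
  /-- good reduction outside of `S` -/
  frobenius : ∀ v ∉ S, (ℓ : 𝓞 K) ∉ v.asIdeal → ∀ σ : AbsoluteGaloisGroup K, IsFrobenius v σ →
    (ρ (s σ⁻¹)).charpoly = (P v).map (algebraMap ℚ ℚ_[ℓ])

/-- the roots of `P v` are simple, and different roots have different `n`-th powers for all `n > 0` -/
def IsRegularPlace {K : Type} [Field K] [NumberField K]
    (S : Set (HeightOneSpectrum (𝓞 K))) (P : HeightOneSpectrum (𝓞 K) → ℚ[X])
    (v : HeightOneSpectrum (𝓞 K)) : Prop :=
  v ∉ S ∧ (P v).Separable ∧ ∀ n : ℕ, 0 < n → ∀ x y : ℂ,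
    aeval x (P v) = 0 → aeval y (P v) = 0 → x ^ n = y ^ n → x = y

/-- the splitting field of `Q` in the algebraic closure of `ℚ` -/
noncomputable def splittingField (Q : ℚ[X]) : Set (AlgebraicClosure ℚ) :=
  (IntermediateField.adjoin ℚ {x : AlgebraicClosure ℚ | aeval x Q = 0} :
    IntermediateField ℚ (AlgebraicClosure ℚ))

/-- the order of the restriction of `g` to the (finite, normal) field `E` -/
noncomputable def orderOn (E : IntermediateField ℚ (AlgebraicClosure ℚ))
    (g : AbsoluteGaloisGroup ℚ) : ℕ :=
  sInf {k : ℕ | 0 < k ∧ ∀ a ∈ E, (g ^ k) a = a}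

/-- `T` is a set of roots of `Q` which is stable under `w` -/
def IsStableSet (w : AbsoluteGaloisGroup ℚ) (Q : ℚ[X]) (T : Set (AlgebraicClosure ℚ)) : Prop :=
  (∀ x ∈ T, aeval x Q = 0) ∧ ∀ x ∈ T, w x ∈ T

/-- `s` is the signature of a cyclic covering of degree `m`, a power of a prime number, of a
projective space of dimension `n ≥ 1`, branched along a hypersurface of degree `m e`, and not that of
a cubic surface. -/
def IsCoveringSignature {m : ℕ} [NeZero m] (s : (ZMod m)ˣ → ℤ) : Prop :=
  ∃ (p k n e : ℕ) (_ : NeZero (m * e)), p.Prime ∧ m = p ^ k ∧ 1 ≤ n ∧ ¬(n = 2 ∧ m * e = 3) ∧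
    s = covSig n m e

/-- The representation `ρ` is semisimple over all subgroups of finite index; the operators that
commute with such a subgroup are the polynomials in `δ`; the forms in `2 j` variables that are
multiplied by `χ ^ j` under such a subgroup are combinations of products of forms `ω(δ ^ a x, y)`; the
forms in an odd number `j` of variables that are multiplied by `ψ ^ j`, where `ψ ^ 2 = χ`, are
zero. -/
structure TateConjectureHolds {ℓ : ℕ} [Fact ℓ.Prime] {V Γ : Type} [AddCommGroup V]
    [Module ℚ_[ℓ] V] [Group Γ] (ρ : Representation ℚ_[ℓ] Γ V) (χ : Γ →* ℚ_[ℓ])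
    (ω : V →ₗ[ℚ_[ℓ]] V →ₗ[ℚ_[ℓ]] ℚ_[ℓ]) (δ : Module.End ℚ_[ℓ] V) : Prop where
  /-- semisimplicity -/
  semisimple : FiniteIndexSemisimple ρ
  /-- endomorphisms -/
  endomorphisms : ∀ Δ : Subgroup Γ, Δ.FiniteIndex → ∀ A : Module.End ℚ_[ℓ] V,
    (∀ g ∈ Δ, A * ρ g = ρ g * A) → A ∈ Algebra.adjoin ℚ_[ℓ] {δ}
  /-- Tate classes of even degree -/
  even : ∀ (j : ℕ) (φ : MultilinearMap ℚ_[ℓ] (fun _ : Fin j × Fin 2 => V) ℚ_[ℓ])
    (Δ : Subgroup Γ), Δ.FiniteIndex → (∀ g ∈ Δ, ∀ v, φ (fun l => ρ g (v l)) = χ g ^ j * φ v) →
    φ ∈ Submodule.span ℚ_[ℓ] (GraphProducts ω δ j)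
  /-- Tate classes of odd degree -/
  odd : ∀ (j : ℕ) (φ : MultilinearMap ℚ_[ℓ] (fun _ : Fin j => V) ℚ_[ℓ]) (ψ : Γ → ℚ_[ℓ])
    (Δ : Subgroup Γ), Odd j → Δ.FiniteIndex → (∀ g ∈ Δ, ψ g ^ 2 = χ g) →
    (∀ g ∈ Δ, ∀ v, φ (fun l => ρ g (v l)) = ψ g ^ j * φ v) → φ = 0

/-- `w` agrees with `g` on the intersection of the splitting fields of the `P (u i)` -/
def AgreeOnIntersection {K : Type} [Field K] [NumberField K] (P : HeightOneSpectrum (𝓞 K) → ℚ[X])
    {r : ℕ} (u : Fin (r + 1) → HeightOneSpectrum (𝓞 K)) (w g : AbsoluteGaloisGroup ℚ) : Prop :=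
  ∀ x, (∀ i, x ∈ splittingField (P (u i))) → w x = g x

/-- the first part of condition (2): for all `g` and all `0 < d < N` which are not divisible by
`n orderOn E g` there are a regular place `v` and `w`, which agrees with `g` on the intersection of
the splitting fields of the `P (u i)`, such that no set of `d` roots of `P v` is stable under `w` -/
def NoStableSets {K : Type} [Field K] [NumberField K] (S : Set (HeightOneSpectrum (𝓞 K)))
    (P : HeightOneSpectrum (𝓞 K) → ℚ[X]) {r : ℕ} (u : Fin (r + 1) → HeightOneSpectrum (𝓞 K))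
    (E : IntermediateField ℚ (AlgebraicClosure ℚ)) (n N : ℕ) : Prop :=
  ∀ (g : AbsoluteGaloisGroup ℚ) (d : ℕ), 0 < d → d < N → ¬ n * orderOn E g ∣ d →
    ∃ (v : HeightOneSpectrum (𝓞 K)) (w : AbsoluteGaloisGroup ℚ), IsRegularPlace S P v ∧
      AgreeOnIntersection P u w g ∧ ∀ T, IsStableSet w (P v) T → T.ncard ≠ d

/-- the second part of condition (2): for all `g` there are a regular place `v` and `w`, which agrees
with `g` on the intersection of the splitting fields of the `P (u i)`, such that `w ^ f`,
`f = orderOn E w`, has a fixed point in every nonempty set of roots of `P v` which is stable under `w`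
and whose number of elements is divisible by `n f` -/
def FixedPointsInStableSets {K : Type} [Field K] [NumberField K]
    (S : Set (HeightOneSpectrum (𝓞 K))) (P : HeightOneSpectrum (𝓞 K) → ℚ[X]) {r : ℕ}
    (u : Fin (r + 1) → HeightOneSpectrum (𝓞 K)) (E : IntermediateField ℚ (AlgebraicClosure ℚ))
    (n : ℕ) : Prop :=
  ∀ g : AbsoluteGaloisGroup ℚ,
    ∃ (v : HeightOneSpectrum (𝓞 K)) (w : AbsoluteGaloisGroup ℚ), IsRegularPlace S P v ∧
      AgreeOnIntersection P u w g ∧
      ∀ T, IsStableSet w (P v) T → T.Nonempty → n * orderOn E w ∣ T.ncard →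
        ∃ x ∈ T, (w ^ orderOn E w) x = x

/-- condition (3), apart from the relation with the representations: the polynomial `Q` over
`E = ℚ(ζ)` has degree `n` and simple roots, two of them have a quotient that is not a root of unity,
and the valuations of the conjugates of its constant coefficient are given by a function on
`(ℤ / m)ˣ` which is nondegenerate or the signature of a cyclic covering -/
structure IsGoodPolynomial {m : ℕ} [NeZero m] {E : IntermediateField ℚ (AlgebraicClosure ℚ)}
    (ζ : E) (n : ℕ) (Q : Polynomial E) : Prop where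
  /-- the degree -/
  degree : Q.natDegree = n
  /-- simple roots -/
  separable : Q.Separable
  /-- two roots with a quotient that is not a root of unity -/
  roots : ∃ a b : AlgebraicClosure E, aeval a Q = 0 ∧ aeval b Q = 0 ∧ ∀ k : ℕ, 0 < k → a ^ k ≠ b ^ k
  /-- the valuations of the constant coefficient -/
  valuations : ∃ sg : (ZMod m)ˣ → ℤ, (IsCoveringSignature sg ∨ Nondegenerate sg) ∧
    HasValuations ζ Q sg

/-- the set `A` of prime numbers has natural density zero -/
def HasDensityZero (A : Set ℕ) : Prop :=
  Tendsto (fun n : ℕ => (Nat.card {ℓ : ℕ // ℓ ≤ n ∧ ℓ ∈ A} : ℝ) / (Nat.primeCounting n : ℝ))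
    atTop (𝓝 0)

/-- **The Tate conjecture for all powers of cyclic coverings at 100 percent of the primes `ℓ`.** -/
theorem result (K : Type) [Field K] [NumberField K] (Γ : Type) [Group Γ] [TopologicalSpace Γ]
    [IsTopologicalGroup Γ] [CompactSpace Γ] (s : AbsoluteGaloisGroup K →* Γ) (hs : Continuous s)
    (N : ℕ) (S : Set (HeightOneSpectrum (𝓞 K))) (hS : S.Finite)
    (P : HeightOneSpectrum (𝓞 K) → ℚ[X])
    -- the field generated by the roots of unity
    (m : ℕ) [NeZero m] (hm : 3 ≤ m) (E : IntermediateField ℚ (AlgebraicClosure ℚ))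
    [IsCyclotomicExtension {m} ℚ E] (ζ : E) (hζ : IsPrimitiveRoot ζ m)
    (n : ℕ) (hn : 3 ≤ n) (hN : N = n * Module.finrank ℚ E)
    -- the `ℓ`-adic representations
    (ρ : ∀ (ℓ : ℕ) [Fact ℓ.Prime], Γ →* Matrix (Fin N) (Fin N) ℚ_[ℓ])
    (χ : ∀ (ℓ : ℕ) [Fact ℓ.Prime], Γ →* ℚ_[ℓ])
    (J : ∀ (ℓ : ℕ) [Fact ℓ.Prime], Matrix (Fin N) (Fin N) ℚ_[ℓ])
    (ε : ∀ (ℓ : ℕ) [Fact ℓ.Prime], E →+* Matrix (Fin N) (Fin N) ℚ_[ℓ])
    (hρ : ∀ (ℓ : ℕ) [Fact ℓ.Prime],
      IsUnitarySystem K s N n ℓ ζ (ρ ℓ) (χ ℓ) (J ℓ) (ε ℓ) S P)
    -- the complex reflections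
    (B : Set ℕ) (hB : B.Finite)
    (hγ : ∀ (ℓ : ℕ) [Fact ℓ.Prime], ℓ ∉ B → ∃ γ : Γ,
      IsReflection m (Matrix.toLin' (ε ℓ ζ)) (repOf (ρ ℓ) γ))
    -- the regular places
    (r : ℕ) (u : Fin (r + 1) → HeightOneSpectrum (𝓞 K)) (hu : ∀ i, IsRegularPlace S P (u i))
    (h1 : NoStableSets S P u E n N) (h2 : FixedPointsInStableSets S P u E n)
    -- one Frobenius polynomial over the field of the roots of unity
    (w₀ : HeightOneSpectrum (𝓞 K)) (Q : Polynomial E) (q₀ : ℕ)
    (hgood : IsGoodPolynomial (m := m) ζ n Q)
    (hQ : ∀ (ℓ : ℕ) [Fact ℓ.Prime], (ℓ : 𝓞 K) ∉ w₀.asIdeal →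
      ∀ σ : AbsoluteGaloisGroup K, IsFrobenius w₀ σ →
        HasPolynomial (AlgebraicClosure ℚ_[ℓ]) (repOf (ρ ℓ)) (χ ℓ) (Matrix.toLin' (ε ℓ ζ)) ζ Q q₀
          (s σ⁻¹)) :
    HasDensityZero {ℓ | ∃ _ : Fact ℓ.Prime,
      ¬ TateConjectureHolds (repOf (ρ ℓ)) (χ ℓ) (formOf (J ℓ)) (Matrix.toLin' (ε ℓ ζ))} := by
  obtain ⟨hQn, hsep, hroots, sg, hsg, hval⟩ := hgood
  have hfin : FiniteDimensional ℚ E := IsCyclotomicExtension.finiteDimensional {m} ℚ E
  have hgal : IsGalois ℚ E := IsCyclotomicExtension.isGalois {m} ℚ E
  have hE : Normal ℚ E := hgal.to_normal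
  have hnd : Nondegenerate sg := by
    rcases hsg with ⟨p, k, n, e, hne, hp, hmk, hn, hex, rfl⟩ | hs
    · refine covSig_nondegenerate hp hmk hm hn ?_ hex
      have h1 := hne.out
      rcases Nat.eq_zero_or_pos e with rfl | he
      · simp at h1
      · exact he
    · exact hs
  have hgs : ∀ (ℓ : ℕ) [Fact ℓ.Prime], Pool.Agent.Y142.SI.GenSys K s N ℓ (ρ ℓ) S P := fun ℓ _ =>
    ⟨(hρ ℓ).continuous, fun v hv hvℓ σ hσ => (hρ ℓ).frobenius v hv hvℓ σ hσ⟩
  have hsys' : ∀ (ℓ : ℕ) [Fact ℓ.Prime], Pool.Agent.Y142.SS.Sys K N ℓ ((ρ ℓ).comp s) S P :=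
    fun ℓ _ => ⟨(hgs ℓ).1.comp hs, fun v hv hvℓ σ hσ => (hgs ℓ).2 v hv hvℓ σ hσ⟩
  have hnice : ∀ v, IsRegularPlace S P v → Pool.Agent.Y142.ZS.NiceP S P v := fun v hv =>
    Pool.Agent.Y142.SS.nice_of_complexA (fun ℓ _ => (ρ ℓ).comp s) hsys' hv.1 hv.2.1 hv.2.2
  have hLf : ∀ (i : Fin (r + 1)) (x : AlgebraicClosure ℚ),
      x ∈ Pool.Agent.Y142.ZI.Lf (P (u i)) → x ∈ splittingField (P (u i)) := by
    intro i x hx
    have h2 : (P (u i)).rootSet (AlgebraicClosure ℚ) =
        {x : AlgebraicClosure ℚ | aeval x (P (u i)) = 0} := by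
      ext y
      exact mem_rootSet_of_ne (hu i).2.1.ne_zero
    unfold Pool.Agent.Y142.ZI.Lf at hx
    rw [h2] at hx
    exact hx
  have hA : ∀ g w : AbsoluteGaloisGroup ℚ,
      (∀ x, (∀ i, x ∈ splittingField (P (u i))) → w x = g x) →
      w⁻¹ * g ∈ Subgroup.closure (⋃ i, Pool.Agent.Y142.SS.Fix (P (u i))) := by
    intro g w hw
    refine Pool.Agent.Y142.SS.field_mem _ (fun i => (hu i).2.1.ne_zero) fun x hx => ?_
    rw [AlgEquiv.mul_apply, ← hw x fun i => hLf i x (hx i), ← AlgEquiv.mul_apply, inv_mul_cancel,
      AlgEquiv.one_apply]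
  have hdens := goodEnd_density hS s hs ρ hgs E hfin hE n (by omega) hN ε
    (fun ℓ _ => (hρ ℓ).commutes) (fun ℓ _ => (hρ ℓ).free) u (fun i => hnice _ (hu i))
    (fun g d hd hdN hnd => by
      obtain ⟨v, w, hv, hw, hT⟩ := h1 g d hd hdN hnd
      exact ⟨v, hnice v hv, w, fun T hT1 hT2 => hT T ⟨hT1, hT2⟩, hA g w hw⟩)
    (fun g => by
      obtain ⟨v, w, hv, hw, hT⟩ := h2 g
      exact ⟨v, hnice v hv, w, fun T hT1 hne hT2 hd => hT T ⟨hT1, hT2⟩ hne hd, hA g w hw⟩)
  have hbad : {ℓ : ℕ | ℓ ≤ Ideal.absNorm w₀.asIdeal}.Finite := Set.finite_Iic _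
  refine Pool.Agent.Y142.ZI.DensityZero.mono
    ((density_finite (hB.union hbad)).union hdens) ?_
  rintro ℓ ⟨hp, hno⟩
  by_contra hnot
  rw [Set.mem_union, Set.mem_union, not_or, not_or] at hnot
  obtain ⟨⟨hℓB, hℓw⟩, hbadE⟩ := hnot
  have hgood : Pool.Agent.Y142.SI.GoodEnd ℓ E (ρ ℓ) (ε ℓ) := by
    by_contra h
    exact hbadE ⟨hp, h⟩
  have hvℓ : (ℓ : 𝓞 K) ∉ w₀.asIdeal :=
    Pool.Agent.Y142.ZO.not_mem_of_lt w₀ hp.out (by
      by_contra h
      exact hℓw (by rw [Set.mem_ofPred_eq]; omega))
  obtain ⟨σ, hσ⟩ := Pool.Agent.W401.Frob.exists_frob w₀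
  obtain ⟨γ, hγ⟩ := hγ ℓ hℓB
  obtain ⟨hss, hend⟩ := of_goodEnd (ρ ℓ) (hρ ℓ).continuous E (ε ℓ) hgood
  have hmain := conclusions_of_end (Ω := AlgebraicClosure ℚ_[ℓ]) (ρ := repOf (ρ ℓ)) (χ := χ ℓ)
    (δ := Matrix.toLin' (ε ℓ ζ)) (ω := formOf (J ℓ)) hm
    (fun u hu => form_nondeg (hρ ℓ).nondegenerate u hu)
    (fun g u v => by
      rw [repOf_apply, repOf_apply]
      exact form_sim ((hρ ℓ).equivariant g) u v)
    (aeval_coef hζ (ε ℓ))
    (fun g => by
      change Matrix.toLin' (ρ ℓ g) ∘ₗ Matrix.toLin' (ε ℓ ζ) =
        Matrix.toLin' (ε ℓ ζ) ∘ₗ Matrix.toLin' (ρ ℓ g)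
      rw [← Matrix.toLin'_mul, ← Matrix.toLin'_mul, (hρ ℓ).commutes])
    (fun u v => by
      rw [Matrix.toLin'_apply, Matrix.toLin'_apply,
        form_sim (c := 1) (by rw [one_smul]; exact (hρ ℓ).isometry) u v, one_mul])
    hγ hss
    (fun Δ hΔ A hA => mem_adjoin_of_span hζ (ε ℓ) (hend Δ hΔ A hA))
    hζ (hQ ℓ hvℓ σ hσ) (by rw [hQn]; exact hn) hsep hroots hnd hval
  exact hno ⟨hmain.1, hmain.2.1, hmain.2.2.1, hmain.2.2.2⟩

end Pool.Agent.Results.MP_938ce2_ag.CyclicCoveringsDensityOne
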