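import Pool.Agent.Helper8K9.CR.Gen
import Pool.Agent.Helper8K9.CR.Sig

/-!
# The Tate conjecture for all powers of abelian varieties with multiplication by roots of unity and a
# complex reflection in their monodromy: superelliptic Jacobians

Let `m ≥ 3` and let `A` be an abelian variety over a number field (containing the `m`-th roots of
unity) with an automorphism `δ` such that `Φ_m(δ) = 0` and with no other endomorphisms:
`End(A) ⊗ ℚ = ℚ(ζ_m)`, also over the algebraic closure of the base field. Let `V` be the rational Tate
module `V_ℓ(A)`, with the action `ρ` of the Galois group `Γ`, the cyclotomic character `χ` and the Weil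
pairing `ω` of a polarization that is invariant under `δ`; it is a module of some rank `r` over
`ℚ(ζ_m) ⊗ ℚ_ℓ`. Suppose that

* some element `γ` of the Galois group acts on `V` as a complex reflection over `ℚ(ζ_m) ⊗ ℚ_ℓ`, with
  the eigenvalue `± δ ^ a`, `a` prime to `m` (`IsReflection`);
* at one place of good reduction, with residue field with `q` elements, the characteristic
  polynomial `Q` of the Frobenius element over `ℚ(ζ_m)` (`IsFrobenius`) has degree `r ≥ 3`, it has
  no multiple roots and two roots whose quotient is not a root of unity; and for some prime ideal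
  `𝔮` over the residue characteristic the valuations at `𝔮` of the conjugates of the constant
  coefficient of `Q` are given by a *nondegenerate* signature `n` (`HasSignature`, `Nondegenerate`).
  (If the residue characteristic splits completely in `ℚ(ζ_m)`, `n` is the signature of `A`, the
  dimensions of the eigenspaces of `δ` on the differential forms: the Newton and the Hodge polygon
  have the same endpoint.)

Then (first part) for all primes `ℓ` all Tate classes on all powers of `A`, of all degrees, are linear
combinations of products of Tate classes of degree two. By the theorem of Faltings these are classes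
of divisors, so that the Tate conjecture holds, in all codimensions, for all powers of `A`. Nothing is
assumed about the group `ρ(Γ)` besides the two elements and the theorem of Faltings.

Superelliptic curves. Let `m` be a power of a prime number and let `A` be the new part (for prime `m`:
all) of the Jacobian of the curve `y ^ m = ∏ (x - x_i) ^ (a_i)`, `i ∈ I`, where the `a_i` are prime to
`m` with the sum `0` modulo `m` (for `y ^ m = f(x)`, `f` of degree `d` prime to `m` with simple roots,
these are `d` exponents `1` and the exponent `- d` at infinity). Here `r = |I| - 2` and the signature is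
`n (t) = ∑ ⟨t a_i / m⟩ - 1` (`sig`).

* Let `v` be a place of the base field at which the curve has good reduction except that the two
  points `x_1`, `x_2` collide, not dividing `ℓ m`; the inertia group is generated by a complex
  reflection with the eigenvalue `ζ ^ ((a_1 + a_2) e)`, `e = v(x_1 - x_2)`, or, if `a_1 = a_2 = a` and
  `x_1`, `x_2` are conjugate, `(- ζ ^ a) ^ e` with `e = v((x_1 - x_2) ^ 2)`. So the first condition is
  satisfied if `(a_1 + a_2) e` or `a e` is prime to `m`; for instance for `y ^ m = f(x)` if `v` divides
  the discriminant of `f` exactly once.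
* The condition on the endomorphisms is satisfied for `y ^ p = f(x)`, `p` prime, if the Galois group of
  `f` is the full symmetric or alternating group and the degree is at least five (Zarhin).
* The second part of the theorem: the signature is nondegenerate if `∑ χ(a_i) ≠ 0` for all odd
  Dirichlet characters `χ` modulo `m`, in particular if more than half of the exponents are equal, as
  in the case of `y ^ m = f(x)`. This uses that the Stickelberger sums `∑ χ(t) t` do not vanish, that
  is `L(1, χ) ≠ 0`.

So the Tate conjecture holds for all powers of the Jacobian of `y ^ p = f(x)`, for instance if the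
Galois group of `f` is the symmetric group, some place prime to `p` (and another one, for the remaining
`ℓ`) divides the discriminant of `f` exactly once, and the Frobenius polynomial of one place satisfies
the above condition on its roots (which is the case if the unit root part over some `𝔮` is neither `0`
nor everything). There are no conditions on the dimension or on the signature, as in the theorems
based on minuscule weights.

The proof. The reflection and the torus generated by the Frobenius element give a nilpotent element of
rank one in the Lie algebra of the operators that kill all Tate classes, on each eigenspace `X_z` of `δ`,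
and the reflection shows that the spaces `X_z` are not isomorphic up to twists. So the Lie algebra
contains the product of the `sl(X_z)`, one `z` from each pair of conjugate roots of unity, and the Tate
classes are generated by those of degree two and by products of the determinants of the `X_z`, which
would be Weil classes. A product of determinants on which the Galois group acts by a power of the
cyclotomic character gives an odd function on the group `(ℤ / m)ˣ` which is orthogonal to the
translates of `n`; so there is none.
-/

namespace Pool.Agent.Results.MP_938ce2_ag.SuperellipticJacobians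

open Module TensorProduct Polynomial Pool.Agent.Y126.Notions Pool.Agent.Helper8K9.CR

/-- `V` is the rational Tate module of an abelian variety with the action `ρ` of the Galois group, the
cyclotomic character `χ`, the Weil pairing `ω` and an automorphism `δ` with `Φ_m(δ) = 0` that
generates the algebra of the endomorphisms over the algebraic closure of the base field (theorems of
Faltings). -/
structure IsTateModule {ℓ : ℕ} [Fact ℓ.Prime] (m : ℕ) {V Γ : Type} [AddCommGroup V]
    [Module ℚ_[ℓ] V] [Group Γ] (ρ : Representation ℚ_[ℓ] Γ V) (χ : Γ →* ℚ_[ℓ])
    (ω : V →ₗ[ℚ_[ℓ]] V →ₗ[ℚ_[ℓ]] ℚ_[ℓ]) (δ : Module.End ℚ_[ℓ] V) : Prop where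
  /-- the Weil pairing is alternating -/
  alternating : ∀ v, ω v v = 0
  /-- the Weil pairing is nondegenerate -/
  nondegenerate : ∀ u, (∀ v, ω v u = 0) → u = 0
  /-- the Weil pairing is equivariant -/
  equivariant : ∀ s u v, ω (ρ s u) (ρ s v) = χ s * ω u v
  /-- the Tate module is semisimple, also over finite extensions of the base field -/
  semisimple : PotentiallySemisimple ρ
  /-- `δ` is a root of the cyclotomic polynomial -/
  cyclotomic : aeval δ (cyclotomic m ℚ_[ℓ]) = 0
  /-- `δ` is defined over the base field -/
  commutes : ∀ s, ρ s * δ = δ * ρ s
  /-- the polarization is invariant under `δ` -/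
  isometry : ∀ u v, ω (δ u) (δ v) = ω u v
  /-- the operators that commute with a subgroup of finite index are polynomials in `δ` -/
  endomorphisms : ∀ Δ : Subgroup Γ, Δ.FiniteIndex → ∀ P : Module.End ℚ_[ℓ] V,
    (∀ s ∈ Δ, P * ρ s = ρ s * P) → P ∈ Algebra.adjoin ℚ_[ℓ] {δ}

/-- The Tate conjecture for all powers of abelian varieties with multiplication by roots of unity and
a complex reflection; the signatures of superelliptic curves are nondegenerate. -/
theorem result :
    (∀ (ℓ : ℕ) [Fact ℓ.Prime] (m : ℕ) [NeZero m], 3 ≤ m →
      ∀ {V Γ : Type} [AddCommGroup V] [Module ℚ_[ℓ] V] [FiniteDimensional ℚ_[ℓ] V] [Group Γ]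
        (ρ : Representation ℚ_[ℓ] Γ V) (χ : Γ →* ℚ_[ℓ]) (ω : V →ₗ[ℚ_[ℓ]] V →ₗ[ℚ_[ℓ]] ℚ_[ℓ])
        (δ : Module.End ℚ_[ℓ] V), IsTateModule m ρ χ ω δ →
      -- a complex reflection
      (∃ γ : Γ, IsReflection m δ (ρ γ)) →
      -- a Frobenius element
      ∀ {E : Type} [Field E] [CharZero E] [IsCyclotomicExtension {m} ℚ E] (ζ : E),
        IsPrimitiveRoot ζ m →
      ∀ (Q : Polynomial E) (q : ℕ) (F : Γ),
        IsFrobenius (AlgebraicClosure ℚ_[ℓ]) ρ χ δ ζ Q q F → 3 ≤ Q.natDegree → Q.Separable →
        (∃ a b : AlgebraicClosure E, aeval a Q = 0 ∧ aeval b Q = 0 ∧
          ∀ k : ℕ, 0 < k → a ^ k ≠ b ^ k) →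
      ∀ n : (ZMod m)ˣ → ℤ, Nondegenerate n → HasSignature ζ Q q n →
      GeneratedInDegreeTwo ρ χ) ∧
    (∀ (p k m : ℕ) [NeZero m], p.Prime → m = p ^ k → 3 ≤ m →
      ∀ {I : Type} [Fintype I] (a : I → (ZMod m)ˣ), ∑ i, (a i : ZMod m) = 0 →
      ((∀ χ : DirichletCharacter ℂ m, χ.Odd → ∑ i, χ (a i) ≠ 0) → Nondegenerate (sig m a)) ∧
      ((∃ b, Fintype.card I < 2 * Nat.card {i // a i = b}) → Nondegenerate (sig m a))) := by
  refine ⟨?_, ?_⟩
  · intro ℓ _ m _ hm V Γ _ _ _ _ ρ χ ω δ h hγ E _ _ _ ζ hζ Q q F hF hdeg hsep hroots n hn hsig
    obtain ⟨γ, hγ⟩ := hγ
    have h1 := generated ℓ hm ρ χ ω δ h.alternating h.nondegenerate h.equivariant h.semisimple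
      h.cyclotomic h.commutes h.isometry h.endomorphisms hγ hζ hF hdeg hsep hroots hn hsig
    intro n m f hf
    refine Submodule.span_mono ?_ (h1 n m f hf)
    rintro g ⟨B, hB, hg⟩
    refine ⟨B, fun l => ?_, hg⟩
    obtain ⟨Δ, hΔ, h1⟩ := hB l
    refine ⟨Δ, hΔ, fun s hs v => ?_⟩
    have h2 := h1 s hs v
    rwa [pow_one] at h2
  · intro p k m _ hp hm hm3 I _ a ha
    refine ⟨fun h => sig_nondegenerate hp hm (by omega) a ha h, ?_⟩
    rintro ⟨b, hb⟩
    classical
    refine sig_nondegenerate hp hm (by omega) a ha fun χ _ => ?_
    refine sum_ne_zero_of_half a b ?_ χ
    rwa [Nat.card_eq_fintype_card, Fintype.card_subtype] at hb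

end Pool.Agent.Results.MP_938ce2_ag.SuperellipticJacobians
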