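import Pool.Agent.Helper8K9.CD.Dens
import Pool.Agent.Helper8K9.UD.All
import Pool.Agent.Y142.SS.Fin

/-!
# The Tate conjecture for all powers of motives of unitary type at 100 percent of the primes `ℓ`

Let `X` be a smooth projective variety over a number field or a finitely generated field `k` of
characteristic zero and let `V_ℓ`, for all primes `ℓ`, be a direct factor of the `ℓ`-adic cohomology
of `X` (of any degree), which is cut out by algebraic correspondences and on which a number field `E`,
Galois over `ℚ`, acts by correspondences. Suppose that the adjoint of `a ∈ E` for the form `J_ℓ`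
given by a polarization is `bar a`, where `bar` is an involution of `E`, not the identity (then `E` is
a CM field and `bar` is the complex conjugation). `V_ℓ` is free of some rank `n ≥ 3` over `E ⊗ ℚ_ℓ`,
and `J_ℓ` is alternating or symmetric, multiplied by a character `χ_ℓ`. The representation comes from
a profinite group `Γ` (the Galois group of `k` or the fundamental group of a model); if `k` is not a
number field, a closed point of the generic fibre of the model gives a homomorphism `s` from the
Galois group of a number field `K` to `Γ`. At the places `v` of good reduction the geometric Frobenius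
element has a characteristic polynomial `P_v` with rational coefficients and a multiplier `q_v`,
independent of `ℓ`. Examples: the abelian varieties `X` with multiplication by a CM field `E`,
`n = 2 dim X / [E : ℚ]`, and the parts of the cohomology of a variety with an automorphism of order
`m ≥ 3` on which it acts by the primitive `m`-th roots of unity.

**Theorem.** Suppose that
(1) for some place `w_0` of good reduction the roots of `P_{w_0}` are simple and `x / y = z / u` for
roots `x ≠ y`, `z`, `u` only in the trivial cases `(z, u) = (x, y)` and `(z, u) = (q / y, q / x)`, `q` the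
multiplier;
(2) (as in the theorem on motives with real multiplication) `u_0, ..., u_r` are places of good
reduction such that the roots of `P_{u_i}` are simple and no quotient of two different roots is a
root of unity, `F` is the intersection of the splitting fields of these polynomials, and for every
automorphism `g` of the algebraic closure of `ℚ`, of order `f` on `E`,
* for every `d < n [E : ℚ]`, `d > 0`, which is not divisible by `n f`, there are a place `v` of this
  type and an automorphism `w` which agrees with `g` on `F` such that no set of `d` roots of `P_v` is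
  stable under `w`;
* there are a place `v` of this type and an automorphism `w` which agrees with `g` on `F` such that
  `w ^ f` has a fixed point in every nonempty set of roots of `P_v` which is stable under `w` and
  whose number of elements is divisible by `n f`;
(3) for some place `w_1` of good reduction the Frobenius element has the characteristic polynomial `Q`
over `E` (it is the image of `Q` under `τ` on the eigenspace of `E` over the algebraic closure of
`ℚ_ℓ`, for every embedding `τ`), and the conjugates `τ(D)` of its constant coefficient `D` satisfy no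
relation `∏_τ τ(D) ^ w(τ) = q ^ r` with integers `w(τ)`, not all zero, such that
`w(τ ∘ bar) = -w(τ)`.

Then for all prime numbers `ℓ` outside of a set of natural density zero:
1. the Lie algebra of the image of `Γ` contains all `X` which commute with `E`, are skew with respect
   to `J_ℓ` and have trace zero over `E ⊗ ℚ_ℓ`; so the image contains an open subgroup of the special
   unitary group;
2. `V_ℓ` is semisimple, also over all finite extensions of `k`;
3. the operators on `V_ℓ` that commute with a subgroup of finite index are in `E ⊗ ℚ_ℓ`;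
4. all Tate classes in `V_ℓ^{⊗ 2 j}`, for all `j` (multilinear forms in `2 j` variables that are
   multiplied by `χ_ℓ ^ j` under a subgroup of finite index), are linear combinations of products of
   the forms `J_ℓ(a x, y)`, `a ∈ E`;
5. there are no Tate classes in tensor powers of odd degree.

The forms `J_ℓ(a x, y)` are the components on `V ⊗ V` of the classes of correspondences (the elements
of `E` and the polarization), so the Tate conjecture holds at 100 percent of the primes `ℓ`, in all
codimensions, for the classes on all powers `X × ⋯ × X` that come from `V_ℓ`, together with the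
semisimplicity. If `X` is an abelian variety and `V_ℓ = H ^ 1`, these are all Tate classes on all
powers of `X`.

All hypotheses are conditions on finitely many Frobenius polynomials that do not involve `ℓ`; nothing is
supposed about the bad places. In the theorem `CyclicCoveringsDensityOne` in this folder it is supposed
that `E` is generated by roots of unity and that there is a complex reflection (a node), and in
`CyclicCoverings` the prime `ℓ` is fixed; here `E` is an arbitrary CM field, Galois over `ℚ`, and the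
big Lie algebra comes from the Frobenius element at `w_0`. In `RealMultiplicationDensityOne`
(MP_3703a7_ag) the elements of `E` are selfadjoint.

Condition (3) excludes the exceptional (Weil) classes. If the residue characteristic of `w_1`
splits completely in `E`, the valuation of `τ(D)` at a fixed prime ideal is, up to a factor, the
sum of the Hodge numbers of the eigenspace for (a translate of) `τ`, since the Newton and the Hodge
polygon have the same endpoint. So (3) is satisfied if no odd function on the set of embeddings is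
orthogonal to all translates of the signature. For an imaginary quadratic field `E` it says that `D` is
not equal to a root of unity times its conjugate; for the abelian varieties of signature `(a, b)` and
a residue characteristic that splits in `E` this is so if `a ≠ b`.

Condition (2): identify the eigenvalues of Frobenius with the pairs `(τ, i)`, `1 ≤ i ≤ n`, so that
`(τ ∘ bar, i)` is dual to `(τ, i)`. In general one expects that the Galois group of `P_v` consists of
all permutations `(τ, i) ↦ (g τ, π_τ(i))` with `π_{τ ∘ bar} = π_τ`. If this is so for all `P_{u_i}`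
and if the splitting fields of the `P_{u_i}` have the intersection `E`, condition (2) is satisfied
with `v = u_0`, if `n` is odd or `E` is imaginary quadratic: for the first part one chooses `w` so
that its orbits on the roots have `n f` elements, or, if `n` is even and `g` acts as `bar` on
`E`, so that `w ^ 2` is trivial on one and acts as a cycle on the other `n - 1` roots with the same
`τ`; for the second part one chooses `w` such that `w ^ f` is trivial on the roots.

Proof. By the theorem on endomorphisms of motives at 100 percent of the primes (2) implies that the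
commutant of every open subgroup is `E ⊗ ℚ_ℓ` and that `V_ℓ` is semisimple, so by the double commutant
theorem the Lie algebra of the image generates the whole commutant of `E`. The Frobenius element at
`w_0` splits it (over the algebraic closure) into root spaces of dimension one; the pairs `(x, y)` of
eigenvalues that occur form a relation that is stable under `(x, y) ↦ (q / y, q / x)` and connects all
eigenvalues in the eigenspace of `E` for `τ`, so it is everything there. Hence the Lie algebra of
trace zero of the unitary group is contained in it and, being perfect, it kills all Tate classes.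
Over the algebraic closure it contains nilpotent elements of rank one on each eigenspace of `E`, and
it separates the eigenspaces, also up to twists by characters; so the Tate classes are combinations of
products of pairings and of determinants of eigenspaces, with a product of determinants that is a
power of `χ_ℓ`. Such a product of determinants contradicts (3).
-/

set_option autoImplicit false

namespace Pool.Agent.Results.MP_938ce2_ag.UnitaryDensityOne

open Matrix Polynomial Filter Topology NumberField IsDedekindDomain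
open Pool.Agent.H204R3.SP Pool.Agent.H204R3.GP Pool.Agent.Helper8K9.CR
  Pool.Agent.Helper8K9.CD Pool.Agent.Helper8K9.UD

/-- the absolute Galois group of `K`, with its profinite (Krull) topology -/
abbrev AbsoluteGaloisGroup (K : Type) [Field K] : Type := Gal(AlgebraicClosure K/K)

/-- `σ` is an (arithmetic) Frobenius element at the prime `v` of the number field `K`: for some prime
`Q` of the algebraic closure above `v` it acts on the residue field as `x ↦ x ^ N(v)` -/
def IsFrobenius {K : Type} [Field K] [NumberField K] (v : HeightOneSpectrum (𝓞 K))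
    (σ : AbsoluteGaloisGroup K) : Prop :=
  ∃ Q : Ideal (𝓞 (AlgebraicClosure K)), Q.IsMaximal ∧
    Q.comap (algebraMap (𝓞 K) (𝓞 (AlgebraicClosure K))) = v.asIdeal ∧
    ∀ x : 𝓞 (AlgebraicClosure K), σ • x - x ^ Ideal.absNorm v.asIdeal ∈ Q

/-- `ρ` is a continuous representation of `Γ` on `ℚ_ℓ ^ N` by similitudes of the nondegenerate
symmetric or alternating form with the matrix `J`, with the multiplier `χ`. The field `E` acts by the
matrices `ε a`, which commute with the representation, and the adjoint of `ε a` is `ε (bar a)`;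
`ℚ_ℓ ^ N` is free of rank `n` over `E ⊗ ℚ_ℓ` (this is expressed by the traces). For all `v ∉ S` which
are prime to `ℓ` the characteristic polynomial of (the image under `s` of) the geometric Frobenius
elements `σ⁻¹` (`σ` arithmetic) at `v` is `P v`, and their multiplier is `q v`. -/
structure IsUnitarySystem (K : Type) [Field K] [NumberField K] {Γ : Type} [Group Γ]
    [TopologicalSpace Γ] (s : AbsoluteGaloisGroup K →* Γ) (N n ℓ : ℕ) [Fact ℓ.Prime]
    {E : IntermediateField ℚ (AlgebraicClosure ℚ)} (bar : E →+* E)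
    (ρ : Γ →* Matrix (Fin N) (Fin N) ℚ_[ℓ]) (χ : Γ →* ℚ_[ℓ]) (J : Matrix (Fin N) (Fin N) ℚ_[ℓ])
    (ε : E →+* Matrix (Fin N) (Fin N) ℚ_[ℓ]) (S : Set (HeightOneSpectrum (𝓞 K)))
    (P : HeightOneSpectrum (𝓞 K) → ℚ[X]) (q : HeightOneSpectrum (𝓞 K) → ℚ) : Prop where
  /-- continuity -/
  continuous : Continuous ρ
  /-- the form is symmetric or alternating -/
  symmetric : Jᵀ = J ∨ Jᵀ = -J
  /-- the form is nondegenerate -/
  nondegenerate : J.det ≠ 0
  /-- the form is multiplied by `χ` -/
  equivariant : ∀ g, (ρ g)ᵀ * J * ρ g = χ g • J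
  /-- the coefficients commute with the representation -/
  commutes : ∀ (a : E) (g : Γ), ε a * ρ g = ρ g * ε a
  /-- the adjoints of the coefficients -/
  adjoint : ∀ a : E, (ε a)ᵀ * J = J * ε (bar a)
  /-- the module over `E ⊗ ℚ_ℓ` is free of rank `n` -/
  free : ∀ a : E, (ε a).trace = (n : ℚ_[ℓ]) * ((Algebra.trace ℚ E a : ℚ) : ℚ_[ℓ])
  /-- good reduction outside of `S` -/
  frobenius : ∀ v ∉ S, (ℓ : 𝓞 K) ∉ v.asIdeal → ∀ σ : AbsoluteGaloisGroup K, IsFrobenius v σ →
    (ρ (s σ⁻¹)).charpoly = (P v).map (algebraMap ℚ ℚ_[ℓ]) ∧ χ (s σ⁻¹) = (q v : ℚ_[ℓ])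

/-- the roots of `P v` are simple, and different roots have different `n`-th powers for all `n > 0` -/
def IsRegularPlace {K : Type} [Field K] [NumberField K]
    (S : Set (HeightOneSpectrum (𝓞 K))) (P : HeightOneSpectrum (𝓞 K) → ℚ[X])
    (v : HeightOneSpectrum (𝓞 K)) : Prop :=
  v ∉ S ∧ (P v).Separable ∧ ∀ n : ℕ, 0 < n → ∀ x y : ℂ,
    aeval x (P v) = 0 → aeval y (P v) = 0 → x ^ n = y ^ n → x = y

/-- the roots of `P v` are simple, and the quotients `x / y` of different roots are different, except
for `x / y = (q / y) / (q / x)`, `q` the multiplier -/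
def IsGenericPlace {K : Type} [Field K] [NumberField K]
    (S : Set (HeightOneSpectrum (𝓞 K))) (P : HeightOneSpectrum (𝓞 K) → ℚ[X])
    (q : HeightOneSpectrum (𝓞 K) → ℚ) (v : HeightOneSpectrum (𝓞 K)) : Prop :=
  v ∉ S ∧ (P v).Separable ∧ ∀ x y z u : ℂ, aeval x (P v) = 0 → aeval y (P v) = 0 →
    aeval z (P v) = 0 → aeval u (P v) = 0 → x ≠ y → x * u = z * y →
    (z = x ∧ u = y) ∨ (z * y = (q v : ℂ) ∧ u * x = (q v : ℂ))

/-- the splitting field of `Q` in the algebraic closure of `ℚ` -/
noncomputable def splittingField (Q : ℚ[X]) : Set (AlgebraicClosure ℚ) :=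
  (IntermediateField.adjoin ℚ {x : AlgebraicClosure ℚ | aeval x Q = 0} :
    IntermediateField ℚ (AlgebraicClosure ℚ))

/-- the order of the restriction of `g` to the (finite, normal) field `E` -/
noncomputable def orderOn (E : IntermediateField ℚ (AlgebraicClosure ℚ))
    (g : AbsoluteGaloisGroup ℚ) : ℕ :=
  sInf {k : ℕ | 0 < k ∧ ∀ a ∈ E, (g ^ k) a = a}

/-- `T` is a set of roots of `Q` which is stable under `w` -/
def IsStableSet (w : AbsoluteGaloisGroup ℚ) (Q : ℚ[X]) (T : Set (AlgebraicClosure ℚ)) : Prop :=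
  (∀ x ∈ T, aeval x Q = 0) ∧ ∀ x ∈ T, w x ∈ T

/-- `w` agrees with `g` on the intersection of the splitting fields of the `P (u i)` -/
def AgreeOnIntersection {K : Type} [Field K] [NumberField K] (P : HeightOneSpectrum (𝓞 K) → ℚ[X])
    {r : ℕ} (u : Fin (r + 1) → HeightOneSpectrum (𝓞 K)) (w g : AbsoluteGaloisGroup ℚ) : Prop :=
  ∀ x, (∀ i, x ∈ splittingField (P (u i))) → w x = g x

/-- the first part of condition (2): for all `g` and all `0 < d < N` which are not divisible by
`n orderOn E g` there are a regular place `v` and `w`, which agrees with `g` on the intersection of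
the splitting fields of the `P (u i)`, such that no set of `d` roots of `P v` is stable under `w` -/
def NoStableSets {K : Type} [Field K] [NumberField K] (S : Set (HeightOneSpectrum (𝓞 K)))
    (P : HeightOneSpectrum (𝓞 K) → ℚ[X]) {r : ℕ} (u : Fin (r + 1) → HeightOneSpectrum (𝓞 K))
    (E : IntermediateField ℚ (AlgebraicClosure ℚ)) (n N : ℕ) : Prop :=
  ∀ (g : AbsoluteGaloisGroup ℚ) (d : ℕ), 0 < d → d < N → ¬ n * orderOn E g ∣ d →
    ∃ (v : HeightOneSpectrum (𝓞 K)) (w : AbsoluteGaloisGroup ℚ), IsRegularPlace S P v ∧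
      AgreeOnIntersection P u w g ∧ ∀ T, IsStableSet w (P v) T → T.ncard ≠ d

/-- the second part of condition (2): for all `g` there are a regular place `v` and `w`, which agrees
with `g` on the intersection of the splitting fields of the `P (u i)`, such that `w ^ f`,
`f = orderOn E w`, has a fixed point in every nonempty set of roots of `P v` which is stable under `w`
and whose number of elements is divisible by `n f` -/
def FixedPointsInStableSets {K : Type} [Field K] [NumberField K]
    (S : Set (HeightOneSpectrum (𝓞 K))) (P : HeightOneSpectrum (𝓞 K) → ℚ[X]) {r : ℕ}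
    (u : Fin (r + 1) → HeightOneSpectrum (𝓞 K)) (E : IntermediateField ℚ (AlgebraicClosure ℚ))
    (n : ℕ) : Prop :=
  ∀ g : AbsoluteGaloisGroup ℚ,
    ∃ (v : HeightOneSpectrum (𝓞 K)) (w : AbsoluteGaloisGroup ℚ), IsRegularPlace S P v ∧
      AgreeOnIntersection P u w g ∧
      ∀ T, IsStableSet w (P v) T → T.Nonempty → n * orderOn E w ∣ T.ncard →
        ∃ x ∈ T, (w ^ orderOn E w) x = x

/-- condition (2): there are regular places `u i` such that both parts hold -/
def HasRegularPlaces {K : Type} [Field K] [NumberField K] (S : Set (HeightOneSpectrum (𝓞 K)))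
    (P : HeightOneSpectrum (𝓞 K) → ℚ[X]) (E : IntermediateField ℚ (AlgebraicClosure ℚ))
    (n N : ℕ) : Prop :=
  ∃ (r : ℕ) (u : Fin (r + 1) → HeightOneSpectrum (𝓞 K)), (∀ i, IsRegularPlace S P (u i)) ∧
    NoStableSets S P u E n N ∧ FixedPointsInStableSets S P u E n

/-- the element `F` of the group has the characteristic polynomial `Q` over the field `E`: for every
embedding `τ` of `E` in the algebraically closed field `Ω` the image of `Q` is the characteristic
polynomial of `F` on the eigenspace `Eu Ω ε τ` (of the `ε a`, with the eigenvalues `τ a`) -/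
def HasPolynomialOver {k V Γ : Type} [Field k] [AddCommGroup V] [Module k V]
    [FiniteDimensional k V] [CharZero k] [Group Γ] (Ω : Type) [Field Ω] [CharZero Ω] [Algebra k Ω]
    {E : Type} [Field E] (ρ : Representation k Γ V) (ε : E →+* Module.End k V)
    (Q : Polynomial E) (F : Γ) : Prop :=
  ∀ (τ : E →+* Ω) (h : ∀ u ∈ Eu Ω ε τ, bcr ρ Ω F u ∈ Eu Ω ε τ),
    charpolyOn (bcr ρ Ω F) (Eu Ω ε τ) h = Q.map τ

/-- the conjugates of `D` satisfy no relation `∏_τ τ(D) ^ w(τ) = q ^ r` with integers `w(τ)`, not all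
zero, such that `w(τ ∘ bar) = -w(τ)` for all embeddings `τ` -/
def NoOddRelations {E : Type} [Field E] (bar : E →+* E) (q : ℚ) (D : E) : Prop :=
  ∀ (w : (E →+* ℂ) → ℤ) (r : ℤ), (∀ τ, w (τ.comp bar) = -w τ) →
    (∏ᶠ τ : E →+* ℂ, τ D ^ w τ) = (q : ℂ) ^ r → ∀ τ, w τ = 0

/-- condition (3): at the place `w` the Frobenius elements have the same polynomial `Q` over `E`, for
all `ℓ`, of degree `n`, and there are no odd relations between the conjugates of its constant
coefficient -/
def HasGoodDeterminant {K : Type} [Field K] [NumberField K] {Γ : Type} [Group Γ]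
    (s : AbsoluteGaloisGroup K →* Γ) (N n : ℕ) {E : Type} [Field E] (bar : E →+* E)
    (ρ : ∀ (ℓ : ℕ) [Fact ℓ.Prime], Γ →* Matrix (Fin N) (Fin N) ℚ_[ℓ])
    (ε : ∀ (ℓ : ℕ) [Fact ℓ.Prime], E →+* Matrix (Fin N) (Fin N) ℚ_[ℓ])
    (q : HeightOneSpectrum (𝓞 K) → ℚ) (w : HeightOneSpectrum (𝓞 K)) : Prop :=
  ∃ Q : Polynomial E, Q.natDegree = n ∧ NoOddRelations bar (q w) (Q.coeff 0) ∧
    ∀ (ℓ : ℕ) [Fact ℓ.Prime], (ℓ : 𝓞 K) ∉ w.asIdeal → ∀ σ : AbsoluteGaloisGroup K,
      IsFrobenius w σ →
        HasPolynomialOver (AlgebraicClosure ℚ_[ℓ]) (repOf (ρ ℓ)) (opOf (ε ℓ)) Q (s σ⁻¹)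

/-- the Lie algebra of the image contains the special unitary Lie algebra: every matrix `X` which
commutes with `E`, is skew with respect to `J` and has trace zero over `E ⊗ ℚ_ℓ` is a limit of
`ℓ ^ (-k) (ρ (σ_k) - 1)` for a sequence of elements `σ_k` of `Γ` -/
def ContainsSpecialUnitary {ℓ : ℕ} [Fact ℓ.Prime] {N : ℕ} {Γ : Type} [Group Γ] {E : Type}
    [Field E] (ρ : Γ →* Matrix (Fin N) (Fin N) ℚ_[ℓ]) (J : Matrix (Fin N) (Fin N) ℚ_[ℓ])
    (ε : E →+* Matrix (Fin N) (Fin N) ℚ_[ℓ]) : Prop :=
  ∀ X : Matrix (Fin N) (Fin N) ℚ_[ℓ], (∀ a, X * ε a = ε a * X) → Xᵀ * J + J * X = 0 →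
    (∀ a, (X * ε a).trace = 0) →
    ∃ σ : ℕ → Γ, Tendsto (fun k : ℕ => ((ℓ : ℚ_[ℓ]) ^ k)⁻¹ • (ρ (σ k) - 1)) atTop (𝓝 X)

/-- The representation is semisimple over all subgroups of finite index; the operators that
commute with such a subgroup are combinations of elements of `E`; the forms in `2 j` variables that
are multiplied by `χ ^ j` under such a subgroup are combinations of products of forms
`ω(a x, y)`, `a ∈ E`; the forms in an odd number `j` of variables that are multiplied by `ψ ^ j`, where
`ψ ^ 2 = χ`, are zero. -/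
structure TateConjectureHolds {ℓ : ℕ} [Fact ℓ.Prime] {V Γ E : Type} [AddCommGroup V]
    [Module ℚ_[ℓ] V] [Group Γ] [Field E] (ρ : Representation ℚ_[ℓ] Γ V) (χ : Γ →* ℚ_[ℓ])
    (ω : V →ₗ[ℚ_[ℓ]] V →ₗ[ℚ_[ℓ]] ℚ_[ℓ]) (ε : E →+* Module.End ℚ_[ℓ] V) : Prop where
  /-- semisimplicity -/
  semisimple : FiniteIndexSemisimple ρ
  /-- endomorphisms -/
  endomorphisms : ∀ Δ : Subgroup Γ, Δ.FiniteIndex → ∀ A : Module.End ℚ_[ℓ] V,
    (∀ g ∈ Δ, A * ρ g = ρ g * A) → A ∈ Submodule.span ℚ_[ℓ] (Set.range ε)
  /-- Tate classes of even degree -/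
  even : ∀ (j : ℕ) (φ : MultilinearMap ℚ_[ℓ] (fun _ : Fin j × Fin 2 => V) ℚ_[ℓ])
    (Δ : Subgroup Γ), Δ.FiniteIndex → (∀ g ∈ Δ, ∀ v, φ (fun l => ρ g (v l)) = χ g ^ j * φ v) →
    φ ∈ Submodule.span ℚ_[ℓ] (GraphProductsE ω ε j)
  /-- Tate classes of odd degree -/
  odd : ∀ (j : ℕ) (φ : MultilinearMap ℚ_[ℓ] (fun _ : Fin j => V) ℚ_[ℓ]) (ψ : Γ → ℚ_[ℓ])
    (Δ : Subgroup Γ), Odd j → Δ.FiniteIndex → (∀ g ∈ Δ, ψ g ^ 2 = χ g) →
    (∀ g ∈ Δ, ∀ v, φ (fun l => ρ g (v l)) = ψ g ^ j * φ v) → φ = 0

/-- the set `A` of prime numbers has natural density zero -/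
def HasDensityZero (A : Set ℕ) : Prop :=
  Tendsto (fun n : ℕ => (Nat.card {ℓ : ℕ // ℓ ≤ n ∧ ℓ ∈ A} : ℝ) / (Nat.primeCounting n : ℝ))
    atTop (𝓝 0)

/-- **The Tate conjecture for all powers of motives of unitary type at 100 percent of the primes
`ℓ`.** -/
theorem result (K : Type) [Field K] [NumberField K] (Γ : Type) [Group Γ] [TopologicalSpace Γ]
    [IsTopologicalGroup Γ] [CompactSpace Γ] (s : AbsoluteGaloisGroup K →* Γ) (hs : Continuous s)
    (N : ℕ) (S : Set (HeightOneSpectrum (𝓞 K))) (hS : S.Finite)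
    (P : HeightOneSpectrum (𝓞 K) → ℚ[X]) (q : HeightOneSpectrum (𝓞 K) → ℚ)
    -- the coefficients
    (E : IntermediateField ℚ (AlgebraicClosure ℚ)) [FiniteDimensional ℚ E] [Normal ℚ E]
    (bar : E →+* E) (hbar : ∀ a, bar (bar a) = a) (hbar' : ∃ a, bar a ≠ a)
    (n : ℕ) (hn : 3 ≤ n) (hN : N = n * Module.finrank ℚ E)
    -- the `ℓ`-adic representations
    (ρ : ∀ (ℓ : ℕ) [Fact ℓ.Prime], Γ →* Matrix (Fin N) (Fin N) ℚ_[ℓ])
    (χ : ∀ (ℓ : ℕ) [Fact ℓ.Prime], Γ →* ℚ_[ℓ])
    (J : ∀ (ℓ : ℕ) [Fact ℓ.Prime], Matrix (Fin N) (Fin N) ℚ_[ℓ])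
    (ε : ∀ (ℓ : ℕ) [Fact ℓ.Prime], E →+* Matrix (Fin N) (Fin N) ℚ_[ℓ])
    (hρ : ∀ (ℓ : ℕ) [Fact ℓ.Prime],
      IsUnitarySystem K s N n ℓ bar (ρ ℓ) (χ ℓ) (J ℓ) (ε ℓ) S P q)
    -- the places
    (w₀ : HeightOneSpectrum (𝓞 K)) (hw₀ : IsGenericPlace S P q w₀)
    (hreg : HasRegularPlaces S P E n N)
    (w₁ : HeightOneSpectrum (𝓞 K)) (hw₁ : w₁ ∉ S) (hgd : HasGoodDeterminant s N n bar ρ ε q w₁) :
    HasDensityZero {ℓ | ∃ _ : Fact ℓ.Prime, ¬ (ContainsSpecialUnitary (ρ ℓ) (J ℓ) (ε ℓ) ∧
      TateConjectureHolds (repOf (ρ ℓ)) (χ ℓ) (formOf (J ℓ)) (opOf (ε ℓ)))} := by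
  obtain ⟨r, u, hu, h1, h2⟩ := hreg
  obtain ⟨Q, hdeg, hD, hQ⟩ := hgd
  have hfin : FiniteDimensional ℚ E := inferInstance
  have hE : Normal ℚ E := inferInstance
  have hNF : NumberField E :=
    { to_charZero := inferInstance
      to_finiteDimensional := by
        have h1 : FiniteDimensional ℚ E := hfin
        convert h1 }
  have hNpos : 0 < N := by
    rw [hN]
    exact Nat.mul_pos (by omega) Module.finrank_pos
  have hgs : ∀ (ℓ : ℕ) [Fact ℓ.Prime], Pool.Agent.Y142.SI.GenSys K s N ℓ (ρ ℓ) S P := fun ℓ _ =>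
    ⟨(hρ ℓ).continuous, fun v hv hvℓ σ hσ => ((hρ ℓ).frobenius v hv hvℓ σ hσ).1⟩
  have hfs : ∀ (ℓ : ℕ) [Fact ℓ.Prime],
      Pool.Agent.Y142.SU.FormSys K s N ℓ (ρ ℓ) (J ℓ) S q := fun ℓ _ =>
    ⟨(hρ ℓ).symmetric, (hρ ℓ).nondegenerate, fun g => ⟨χ ℓ g, (hρ ℓ).equivariant g⟩,
      fun v hv hvℓ σ hσ => by
        have h1 := (hρ ℓ).equivariant (s σ⁻¹)
        rw [((hρ ℓ).frobenius v hv hvℓ σ hσ).2] at h1
        exact h1⟩
  have hsys' : ∀ (ℓ : ℕ) [Fact ℓ.Prime], Pool.Agent.Y142.SS.Sys K N ℓ ((ρ ℓ).comp s) S P :=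
    fun ℓ _ => ⟨(hgs ℓ).1.comp hs, fun v hv hvℓ σ hσ => (hgs ℓ).2 v hv hvℓ σ hσ⟩
  have hnice : ∀ v, IsRegularPlace S P v → Pool.Agent.Y142.ZS.NiceP S P v := fun v hv =>
    Pool.Agent.Y142.SS.nice_of_complexA (fun ℓ _ => (ρ ℓ).comp s) hsys' hv.1 hv.2.1 hv.2.2
  have hgen : Pool.Agent.Y142.ZS.GenP S P q w₀ :=
    Pool.Agent.Y142.SU.gen_of_complexU hw₀.1
      (Pool.Agent.Y142.SS.monic_of_sysA (fun ℓ _ => (ρ ℓ).comp s) hsys' hw₀.1).1
      (Pool.Agent.Y142.SU.q_ne_zeroU hNpos s ρ J hfs hw₀.1) hw₀.2.1 hw₀.2.2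
  have hLf : ∀ (i : Fin (r + 1)) (x : AlgebraicClosure ℚ),
      x ∈ Pool.Agent.Y142.ZI.Lf (P (u i)) → x ∈ splittingField (P (u i)) := by
    intro i x hx
    have h2 : (P (u i)).rootSet (AlgebraicClosure ℚ) =
        {x : AlgebraicClosure ℚ | aeval x (P (u i)) = 0} := by
      ext y
      exact mem_rootSet_of_ne (hu i).2.1.ne_zero
    unfold Pool.Agent.Y142.ZI.Lf at hx
    rw [h2] at hx
    exact hx
  have hA : ∀ g w : AbsoluteGaloisGroup ℚ,
      (∀ x, (∀ i, x ∈ splittingField (P (u i))) → w x = g x) →
      w⁻¹ * g ∈ Subgroup.closure (⋃ i, Pool.Agent.Y142.SS.Fix (P (u i))) := by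
    intro g w hw
    refine Pool.Agent.Y142.SS.field_mem _ (fun i => (hu i).2.1.ne_zero) fun x hx => ?_
    rw [AlgEquiv.mul_apply, ← hw x fun i => hLf i x (hx i), ← AlgEquiv.mul_apply, inv_mul_cancel,
      AlgEquiv.one_apply]
  have hdens := goodEnd_density hS s hs ρ hgs E hfin hE n (by omega) hN ε
    (fun ℓ _ => (hρ ℓ).commutes) (fun ℓ _ => (hρ ℓ).free) u (fun i => hnice _ (hu i))
    (fun g d hd hdN hnd => by
      obtain ⟨v, w, hv, hw, hT⟩ := h1 g d hd hdN hnd
      exact ⟨v, hnice v hv, w, fun T hT1 hT2 => hT T ⟨hT1, hT2⟩, hA g w hw⟩)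
    (fun g => by
      obtain ⟨v, w, hv, hw, hT⟩ := h2 g
      exact ⟨v, hnice v hv, w, fun T hT1 hne hT2 hd => hT T ⟨hT1, hT2⟩ hne hd, hA g w hw⟩)
  have hnon : NondegenerateDet ℂ bar (q w₁ : ℂ) (Q.coeff 0) := by
    intro w r hw hprod
    refine hD w r hw ?_
    rw [finprod_eq_prod_of_fintype]
    exact hprod
  have hbad0 : {ℓ : ℕ | ℓ ≤ Ideal.absNorm w₀.asIdeal}.Finite := Set.finite_Iic _
  have hbad1 : {ℓ : ℕ | ℓ ≤ Ideal.absNorm w₁.asIdeal}.Finite := Set.finite_Iic _
  refine Pool.Agent.Y142.ZI.DensityZero.mono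
    ((density_finite (hbad0.union hbad1)).union hdens) ?_
  rintro ℓ ⟨hp, hno⟩
  by_contra hnot
  rw [Set.mem_union, Set.mem_union, not_or, not_or] at hnot
  obtain ⟨⟨hℓ0, hℓ1⟩, hbadE⟩ := hnot
  have hgood : Pool.Agent.Y142.SI.GoodEnd ℓ E (ρ ℓ) (ε ℓ) := by
    by_contra h
    exact hbadE ⟨hp, h⟩
  have hv0 : (ℓ : 𝓞 K) ∉ w₀.asIdeal :=
    Pool.Agent.Y142.ZO.not_mem_of_lt w₀ hp.out (by
      by_contra h
      exact hℓ0 (by rw [Set.mem_ofPred_eq]; omega))
  have hv1 : (ℓ : 𝓞 K) ∉ w₁.asIdeal :=
    Pool.Agent.Y142.ZO.not_mem_of_lt w₁ hp.out (by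
      by_contra h
      exact hℓ1 (by rw [Set.mem_ofPred_eq]; omega))
  obtain ⟨σ₀, hσ₀⟩ := Pool.Agent.W401.Frob.exists_frob w₀
  obtain ⟨σ₁, hσ₁⟩ := Pool.Agent.W401.Frob.exists_frob w₁
  obtain ⟨hchar, hmult⟩ := (hρ ℓ).frobenius w₀ hw₀.1 hv0 σ₀ hσ₀
  have hmain := conclusions_local hNpos (ρ ℓ) (hρ ℓ).continuous E hfin n (by omega) (ε ℓ)
    (hρ ℓ).commutes (hρ ℓ).free (J ℓ) (hρ ℓ).symmetric (hρ ℓ).nondegenerate (hρ ℓ).equivariant bar
    hbar hbar' (hρ ℓ).adjoint hgood (s σ₀⁻¹) (q w₀ : ℚ_[ℓ]) hmult
    (by rw [hchar]; exact hgen.2.2.1.map)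
    (by rw [hchar]; exact Pool.Agent.Y142.SU.generic_of_gen hgen ℓ)
    ((hρ ℓ).frobenius w₁ hw₁ hv1 σ₁ hσ₁).2 (by rw [hdeg]; exact hn) (hQ ℓ hv1 σ₁ hσ₁) hnon
  exact hno ⟨hmain.1, hmain.2.1, hmain.2.2.1, hmain.2.2.2.1, hmain.2.2.2.2⟩

end Pool.Agent.Results.MP_938ce2_ag.UnitaryDensityOne
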